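import Pool.Agent.MP_c1891a_nt.H43.Spec3

/-
Automorphisms that fix a number field, and the embeddings of its cyclotomic extensions.
-/

namespace Pool.Agent.MP_c1891a_nt.H43

open Finset Polynomial Module
open scoped IntermediateField

theorem gal_aut {g : ℕ} {ω : ℂ} (hg : 0 < g) (hω : IsPrimitiveRoot ω g) {j : ℕ}
    (hj : Nat.Coprime j g) : ∃ θ : ℂ ≃+* ℂ, θ ω = ω ^ j := by
  have : NeZero g := ⟨hg.ne'⟩
  have : IsCyclotomicExtension {g} ℚ ℚ⟮ω⟯ := by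
    change IsCyclotomicExtension {g} ℚ (ℚ⟮ω⟯).toSubalgebra
    rw [IntermediateField.adjoin_simple_toSubalgebra_of_isAlgebraic
      ((hω.isIntegral hg).tower_top (A := ℚ)).isAlgebraic]
    exact hω.adjoin_isCyclotomicExtension ℚ
  have hN : NumberField ℚ⟮ω⟯ := IsCyclotomicExtension.numberField {g} ℚ _
  have hirr : Irreducible (cyclotomic g ℚ) := cyclotomic.irreducible_rat hg
  have hω' : IsPrimitiveRoot (IntermediateField.AdjoinSimple.gen ℚ ω) g :=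
    IsPrimitiveRoot.of_map_of_injective (f := (ℚ⟮ω⟯).val) hω (ℚ⟮ω⟯).val.injective
  obtain ⟨σ, hσ⟩ := (hω'.embeddingsEquivPrimitiveRoots ℂ hirr).surjective
    ⟨ω ^ j, (mem_primitiveRoots hg).2 ((hω.pow_iff_coprime hg j).2 hj)⟩
  obtain ⟨θ, hθ⟩ := ext_aut (ℚ⟮ω⟯).val.toRingHom σ.toRingHom
  exact ⟨θ, (hθ (IntermediateField.AdjoinSimple.gen ℚ ω)).trans (congrArg Subtype.val hσ)⟩

theorem gal_aut' {g : ℕ} (hg : 0 < g) {j : ℕ} (hj : Nat.Coprime j g) :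
    ∃ θ : ℂ ≃+* ℂ, ∀ x : ℂ, x ^ g = 1 → θ x = x ^ j := by
  have : NeZero g := ⟨hg.ne'⟩
  have hω := Complex.isPrimitiveRoot_exp g hg.ne'
  obtain ⟨θ, hθ⟩ := gal_aut hg hω hj
  refine ⟨θ, fun x hx => ?_⟩
  obtain ⟨i, -, rfl⟩ := hω.eq_pow_of_pow_eq_one hx
  rw [map_pow, hθ, ← pow_mul, ← pow_mul, mul_comm j]

theorem gal_pow {x : ℂ} {n a b : ℕ} (hx : x ^ n = 1) (h : a ≡ b [MOD n]) : x ^ a = x ^ b := by
  rw [pow_eq_pow_mod a hx, pow_eq_pow_mod b hx, h]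

theorem sGal : SGal := by
  classical
  intro K _ _ ι₀
  let S : ℕ → Finset (K →+* ℂ) := fun n => univ.filter fun τ =>
    ∃ θ : ℂ ≃+* ℂ, (∀ x : ℂ, x ^ n = 1 → θ x = x) ∧ ∀ a, τ a = θ (ι₀ a)
  have hmono : ∀ f M, f ∣ M → S M ⊆ S f := by
    rintro f _ ⟨c, rfl⟩ τ hτ
    obtain ⟨θ, h1, h2⟩ := (mem_filter.1 hτ).2
    exact mem_filter.2 ⟨mem_univ _, θ, fun x hx => h1 x (by rw [pow_mul, hx, one_pow]), h2⟩
  obtain ⟨f0, hf0⟩ : ∃ f0 : ℕ, ∀ n, (S (f0 + 1)).card ≤ (S (n + 1)).card :=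
    ⟨Function.argmin fun n => (S (n + 1)).card, fun n =>
      Function.argmin_le (fun n => (S (n + 1)).card) n⟩
  refine ⟨f0 + 1, f0.succ_pos, fun N ξ j hN hξ hj hmod => ?_⟩
  obtain ⟨k, hk1, hk2⟩ := Nat.chineseRemainder' hmod.symm
  have hM : 0 < (f0 + 1) * N := Nat.mul_pos f0.succ_pos hN
  have hS : S ((f0 + 1) * N) = S (f0 + 1) := by
    refine eq_of_subset_of_card_le (hmono _ _ (dvd_mul_right _ _)) ?_
    have := hf0 ((f0 + 1) * N - 1)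
    rwa [Nat.sub_add_cancel hM] at this
  have hk : Nat.Coprime k ((f0 + 1) * N) := by
    refine Nat.Coprime.mul_right ?_ ?_
    · rw [Nat.Coprime, hk1.gcd_eq, Nat.gcd_one_left]
    · rw [Nat.Coprime, hk2.gcd_eq]; exact hj
  obtain ⟨θ, hθ⟩ := gal_aut' hM hk
  have h1 : θ.toRingHom.comp ι₀ ∈ S ((f0 + 1) * N) := by
    rw [hS]
    refine mem_filter.2 ⟨mem_univ _, θ, fun x hx => ?_, fun _ => rfl⟩
    rw [hθ x (by rw [pow_mul, hx, one_pow]), gal_pow hx hk1, pow_one]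
  obtain ⟨z, z1, z2⟩ := (mem_filter.1 h1).2
  have hξM : ξ ^ ((f0 + 1) * N) = 1 := by rw [mul_comm, pow_mul, hξ.pow_eq_one, one_pow]
  refine ⟨θ.trans z.symm, fun a => ?_, ?_⟩
  · rw [RingEquiv.trans_apply, RingEquiv.symm_apply_eq]
    exact z2 a
  · rw [RingEquiv.trans_apply, RingEquiv.symm_apply_eq, hθ ξ hξM, map_pow, z1 ξ hξM,
      gal_pow hξ.pow_eq_one hk2]

theorem sEmb (h : SGal) : SEmb := by
  classical
  intro K _ _ ι₀
  obtain ⟨f, hf, hG⟩ := h K ι₀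
  refine ⟨f, hf, fun N ξ hN hξ => ?_⟩
  have : NeZero N := ⟨hN.ne'⟩
  let _ : Algebra K ℂ := ι₀.toAlgebra
  have : IsScalarTower ℚ K ℂ := IsScalarTower.of_algebraMap_eq fun x => by simp
  have hi : IsIntegral K ξ := (hξ.isIntegral hN).tower_top
  have : FiniteDimensional K K⟮ξ⟯ := IntermediateField.adjoin.finiteDimensional hi
  have hL : NumberField K⟮ξ⟯ := NumberField.of_module_finite K _
  let ι : K⟮ξ⟯ →+* ℂ := (K⟮ξ⟯).val.toRingHom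
  let ξ' : K⟮ξ⟯ := IntermediateField.AdjoinSimple.gen K ξ
  have hι : ι ξ' = ξ := rfl
  have hιa : ∀ a, ι (algebraMap K K⟮ξ⟯ a) = ι₀ a := fun _ => rfl
  have hξ' : IsPrimitiveRoot ξ' N := IsPrimitiveRoot.of_map_of_injective (f := ι) hξ ι.injective
  have hext : ∀ σ τ : K⟮ξ⟯ →+* ℂ, σ.comp (algebraMap K K⟮ξ⟯) = τ.comp (algebraMap K K⟮ξ⟯) →
      σ ξ' = τ ξ' → σ = τ := by
    refine fun σ τ h1 h2 => RingHom.ext fun ⟨x, hx⟩ => ?_
    induction hx using IntermediateField.adjoin_induction with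
    | mem x hx =>
      rcases hx with rfl
      exact h2
    | algebraMap x => exact RingHom.congr_fun h1 x
    | add x y hx hy ihx ihy =>
      exact (map_add σ ⟨x, hx⟩ ⟨y, hy⟩).trans
        ((congrArg₂ (· + ·) ihx ihy).trans (map_add τ ⟨x, hx⟩ ⟨y, hy⟩).symm)
    | inv x hx ih =>
      exact (map_inv₀ σ ⟨x, hx⟩).trans ((congrArg (·⁻¹) ih).trans (map_inv₀ τ ⟨x, hx⟩).symm)
    | mul x y hx hy ihx ihy =>
      exact (map_mul σ ⟨x, hx⟩ ⟨y, hy⟩).trans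
        ((congrArg₂ (· * ·) ihx ihy).trans (map_mul τ ⟨x, hx⟩ ⟨y, hy⟩).symm)
  have hJ : ∀ σ : K⟮ξ⟯ →+* ℂ, ∃ j ∈ Cop N, σ ξ' = ξ ^ j := fun σ => by
    obtain ⟨i, h1, h2, h3⟩ := hξ.isPrimitiveRoot_iff.1 (hξ'.map_of_injective σ.injective)
    exact ⟨i, mem_filter.2 ⟨mem_range.2 h1, h2⟩, h3.symm⟩
  choose J hJ1 hJ2 using hJ
  have hJ3 : ∀ (σ : K⟮ξ⟯ →+* ℂ), ∀ j ∈ Cop N, σ ξ' = ξ ^ j → J σ = j := fun σ j hj e =>
    hξ.pow_inj (mem_range.1 (mem_filter.1 (hJ1 σ)).1) (mem_range.1 (mem_filter.1 hj).1)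
      ((hJ2 σ).symm.trans e)
  refine ⟨K⟮ξ⟯, inferInstance, hL, inferInstance, ι, ξ', fun τ => (Cop N).filter fun j =>
    ∃ σ : K⟮ξ⟯ →+* ℂ, σ.comp (algebraMap K K⟮ξ⟯) = τ ∧ σ ξ' = ξ ^ j, hιa, hι, ?_,
    fun τ => filter_subset _ _, fun τ j hj j' hj' hm => ?_, fun G => ?_⟩
  · have h1 : N.totient = (Cop N).card := by
      rw [Nat.totient_eq_card_coprime, Cop]
      simp only [Nat.coprime_comm]
    rw [h1, ← NumberField.Embeddings.card K⟮ξ⟯ ℂ, ← card_univ]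
    refine card_le_card_of_surjOn J fun j hj => ?_
    obtain ⟨θ, hθ⟩ := gal_aut hN hξ (mem_filter.1 hj).2
    exact ⟨θ.toRingHom.comp ι, mem_univ _, hJ3 _ j hj hθ⟩
  · obtain ⟨hjc, σ, s1, s2⟩ := mem_filter.1 hj
    have c1 : Nat.Coprime j N := (mem_filter.1 hjc).2
    have c2 : Nat.Coprime j' N := (mem_filter.1 hj').2
    obtain ⟨t, ht⟩ : ∃ t, N.totient = t + 1 := ⟨N.totient - 1, by
      have := Nat.totient_pos.2 hN; omega⟩
    have e1 : j ^ t * j ≡ 1 [MOD N] := by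
      rw [← pow_succ, ← ht]; exact Nat.ModEq.pow_totient c1
    obtain ⟨θ, t1, t2⟩ := hG N ξ (j ^ t * j') hN hξ (Nat.Coprime.mul_left (c1.pow_left t) c2)
      ((hm.symm.mul_left _).trans (e1.of_dvd (Nat.gcd_dvd_right f N)))
    obtain ⟨θσ, hσ⟩ := ext_aut ι σ
    refine mem_filter.2 ⟨hj', θσ.toRingHom.comp (θ.toRingHom.comp ι), ?_, ?_⟩
    · rw [← s1]
      ext a
      change θσ (θ (ι₀ a)) = σ (algebraMap K K⟮ξ⟯ a)
      rw [t1, ← hσ, hιa]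
    · change θσ (θ ξ) = _
      rw [t2, map_pow, ← hι, hσ, s2, hι, ← pow_mul]
      refine gal_pow hξ.pow_eq_one ?_
      have := e1.mul_right j'
      rwa [one_mul, mul_comm (j ^ t), mul_assoc] at this
  · rw [← sum_fiberwise univ (fun σ : K⟮ξ⟯ →+* ℂ => σ.comp (algebraMap K K⟮ξ⟯))]
    refine sum_congr rfl fun τ _ => sum_bij (fun σ _ => J σ) ?_ ?_ ?_ ?_
    · intro σ hσ
      exact mem_filter.2 ⟨hJ1 σ, σ, (mem_filter.1 hσ).2, hJ2 σ⟩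
    · intro σ hσ σ' hσ' e
      exact hext σ σ' ((mem_filter.1 hσ).2.trans (mem_filter.1 hσ').2.symm)
        (by rw [hJ2, hJ2, e])
    · intro j hj
      obtain ⟨hjc, σ, s1, s2⟩ := mem_filter.1 hj
      exact ⟨σ, mem_filter.2 ⟨mem_univ _, s1⟩, hJ3 σ j hjc s2⟩
    · intro σ hσ
      rw [(mem_filter.1 hσ).2, hJ2]

end Pool.Agent.MP_c1891a_nt.H43
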