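import Pool.Agent.MP_c1891a_nt.H79.Spec

/-
A crude Liouville inequality.
-/

namespace Pool.Agent.MP_c1891a_nt.H44

open Finset Polynomial Pool.Agent.MP_c1891a_nt.H79

namespace Liou

lemma one_le {f : ℤ[X]} (h : f ≠ 0) : (1 : ℝ) ≤ |(f.coeff f.natDegree : ℝ)| := by
  exact_mod_cast Int.one_le_abs (leadingCoeff_ne_zero.2 h)

lemma root {f : ℤ[X]} {H : ℝ} {z : ℂ} (h0 : f ≠ 0) (h : ∀ n, |(f.coeff n : ℝ)| ≤ H)
    (hz : aeval z f = 0) : ‖z‖ ≤ 2 * H := by
  have inj : Function.Injective (algebraMap ℤ ℂ) := (algebraMap ℤ ℂ).injective_int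
  have H1 := (one_le h0).trans (h _)
  have r : (f.map (algebraMap ℤ ℂ)).IsRoot z := by rwa [IsRoot, eval_map_algebraMap]
  have e := r.norm_lt_cauchyBound ((Polynomial.map_ne_zero_iff inj).2 h0)
  have e1 : sup (range (f.map (algebraMap ℤ ℂ)).natDegree) (‖(f.map (algebraMap ℤ ℂ)).coeff ·‖₊)
      ≤ H.toNNReal := Finset.sup_le fun n _ => by
    rw [← NNReal.coe_le_coe, Real.coe_toNNReal H (by linarith)]
    simpa [Int.norm_eq_abs] using h n
  have e2 : 1 ≤ ‖(f.map (algebraMap ℤ ℂ)).leadingCoeff‖₊ := by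
    rw [← NNReal.coe_le_coe, leadingCoeff_map_of_injective inj]
    simpa [Int.norm_eq_abs] using one_le h0
  have e3 := NNReal.coe_lt_coe.2
    (e.trans_le (add_le_add_left ((div_le_self zero_le e2).trans e1) 1))
  rw [NNReal.coe_add, Real.coe_toNNReal H (by linarith), coe_nnnorm, NNReal.coe_one] at e3
  linarith

lemma val {G : ℤ[X]} {E : ℕ} {z : ℂ} {R : ℝ} (hG : G.natDegree ≤ E) (R1 : 1 ≤ R) (hz : ‖z‖ ≤ R) :
    ‖aeval z G‖ ≤ (∑ n ∈ range (E + 1), |(G.coeff n : ℝ)|) * R ^ E := by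
  rw [aeval_eq_sum_range' (Nat.lt_succ_of_le hG), sum_mul]
  refine norm_sum_le_of_le _ fun n hn => ?_
  rw [zsmul_eq_mul, norm_mul, norm_pow, Complex.norm_intCast]
  exact mul_le_mul_of_nonneg_left ((pow_le_pow_left₀ (norm_nonneg _) hz n).trans
    (pow_le_pow_right₀ R1 (Nat.lt_succ_iff.1 (mem_range.1 hn)))) (abs_nonneg _)

lemma int {K : Type} [Field K] {f G : ℤ[X]} {x : K} {E : ℕ} (hx : aeval x f = 0)
    (hG : G.natDegree ≤ E) : IsIntegral ℤ ((f.leadingCoeff : K) ^ E * aeval x G) := by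
  rw [aeval_eq_sum_range' (Nat.lt_succ_of_le hG), mul_sum]
  refine IsIntegral.sum _ fun n hn => ?_
  obtain ⟨k, rfl⟩ := Nat.exists_eq_add_of_le (Nat.lt_succ_iff.1 (mem_range.1 hn))
  rw [show (f.leadingCoeff : K) ^ (n + k) * G.coeff n • x ^ n =
    (f.leadingCoeff ^ k * G.coeff n) • (f.leadingCoeff • x) ^ n by simp; ring]
  exact ((isIntegral_leadingCoeff_smul f x hx).pow n).zsmul _

lemma prod {K : Type} [Field K] [NumberField K] {β : K} (h : IsIntegral ℤ β) (h0 : β ≠ 0) :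
    1 ≤ ∏ σ : K →ₐ[ℚ] ℂ, ‖σ β‖ := by
  obtain ⟨m, hm⟩ := IsIntegrallyClosed.isIntegral_iff.1 (Algebra.isIntegral_norm ℚ h)
  have m0 : m ≠ 0 := fun e => Algebra.norm_ne_zero_iff.2 h0 (by rw [← hm, e, map_zero])
  rw [← norm_prod, ← Algebra.norm_eq_prod_embeddings, ← hm]
  simp only [eq_intCast, map_intCast, Complex.norm_intCast]
  exact_mod_cast Int.one_le_abs m0

end Liou

theorem liou : SLiou := by
  classical
  intro f G α d E H L f0 hf hd hH hE hL hG
  have H1 := (Liou.one_le f0).trans (hH _)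
  have G0 : G ≠ 0 := fun e => hG (by rw [e, map_zero])
  have L1 : 1 ≤ L := ((Liou.one_le G0).trans (single_le_sum (f := fun n => |(G.coeff n : ℝ)|)
    (fun _ _ => abs_nonneg _) (mem_range.2 (Nat.lt_succ_of_le hE)))).trans hL
  have inj : Function.Injective (algebraMap ℤ ℚ) := (algebraMap ℤ ℚ).injective_int
  have q0 := (Polynomial.map_ne_zero_iff inj).2 f0
  have q1 : aeval α (f.map (algebraMap ℤ ℚ)) = 0 := by rwa [aeval_map_algebraMap]
  have ia : IsIntegral ℚ α := IsAlgebraic.isIntegral ⟨_, q0, q1⟩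
  obtain ⟨K, _, _, x, ι, rfl, c0⟩ : ∃ (K : Type) (_ : Field K) (_ : NumberField K) (x : K)
      (ι : K →ₐ[ℚ] ℂ), ι x = α ∧ Module.finrank ℚ K = (minpoly ℚ α).natDegree := by
    have := IntermediateField.adjoin.finiteDimensional ia
    exact ⟨IntermediateField.adjoin ℚ {α}, inferInstance, {}, IntermediateField.AdjoinSimple.gen ℚ α,
      IntermediateField.val _, rfl, IntermediateField.adjoin.finrank ia⟩
  have ev : ∀ (σ : K →ₐ[ℚ] ℂ) (p : ℤ[X]), σ (aeval x p) = aeval (σ x) p := fun σ p =>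
    (aeval_algHom_apply (σ.restrictScalars ℤ) x p).symm
  have hx : aeval x f = 0 := ι.injective ((ev ι f).trans (hf.trans (map_zero _).symm))
  have c : Fintype.card (K →ₐ[ℚ] ℂ) ≤ d := by
    rw [AlgHom.card, c0]
    exact ((natDegree_le_of_dvd (minpoly.dvd ℚ _ q1) q0).trans natDegree_map_le).trans hd
  have a0 : (f.leadingCoeff : K) ≠ 0 := Int.cast_ne_zero.2 (leadingCoeff_ne_zero.2 f0)
  have p := Liou.prod (Liou.int hx hE) (mul_ne_zero (pow_ne_zero _ a0) fun e =>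
    hG ((ev ι G).symm.trans (by rw [e, map_zero])))
  have n : ∀ σ : K →ₐ[ℚ] ℂ, ‖σ ((f.leadingCoeff : K) ^ E * aeval x G)‖ ≤
      H ^ E * ‖aeval (σ x) G‖ := fun σ => by
    rw [map_mul, map_pow, map_intCast, ev, norm_mul, norm_pow, Complex.norm_intCast]
    exact mul_le_mul_of_nonneg_right (pow_le_pow_left₀ (abs_nonneg _) (hH _) E) (norm_nonneg _)
  set B := L * (2 * H ^ 2) ^ E with hB
  have eB : B = H ^ E * (L * (2 * H) ^ E) := by rw [hB, sq, ← mul_assoc, mul_pow]; ring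
  have h2 : 1 ≤ 2 * H := by linarith
  have b1 : 1 ≤ L * (2 * H) ^ E := one_le_mul_of_one_le_of_one_le L1 (one_le_pow₀ h2)
  have b2 : H ^ E ≤ B := eB ▸ le_mul_of_one_le_right (by positivity) b1
  have b3 : 1 ≤ B := (one_le_pow₀ H1).trans b2
  rw [← mul_prod_erase univ _ (mem_univ ι)] at p
  have u : ∏ σ ∈ univ.erase ι, ‖σ ((f.leadingCoeff : K) ^ E * aeval x G)‖ ≤
      B ^ (Fintype.card (K →ₐ[ℚ] ℂ) - 1) := by
    rw [← card_univ, ← card_erase_of_mem (mem_univ ι), ← prod_const]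
    refine prod_le_prod (fun _ _ => norm_nonneg _) fun σ _ => (n σ).trans ?_
    rw [eB]
    refine mul_le_mul_of_nonneg_left ((Liou.val hE h2 (Liou.root f0 hH ?_)).trans
      (mul_le_mul_of_nonneg_right hL (by positivity))) (by positivity)
    rw [← ev, hx, map_zero]
  have c1 : 0 < Fintype.card (K →ₐ[ℚ] ℂ) := Fintype.card_pos_iff.2 ⟨ι⟩
  refine p.trans ((mul_le_mul ((n ι).trans (mul_le_mul_of_nonneg_right b2 (norm_nonneg _))) u
    (prod_nonneg fun _ _ => norm_nonneg _) (by positivity)).trans ?_)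
  rw [mul_comm B, mul_assoc, ← pow_succ']
  exact mul_le_mul_of_nonneg_left (pow_le_pow_right₀ b3 (by omega)) (norm_nonneg _)

end Pool.Agent.MP_c1891a_nt.H44
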